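import Mathlib
import Pool.Agent.Helper92.PO.Stmts

namespace Pool.Agent.Helper92.PO

open Pool.Agent.Helper52.Poly

theorem plab_e {δ : Type} [Enc δ] (k : ℕ) (f : δ → ℕ) (hf : PF f) :
    PF (fun c => ((k, f c + 1) : Lab)) :=
  PF.pair (PF.const k) (PF.add hf (PF.const 1))

theorem st_PLAB (h1 : ST_PRNG) (h2 : ST_PFLM) : ST_PLAB := by
  intro γ _ m hm
  have hr : PF (fun c => List.range (m c)) := h1 γ m hm
  have hh : PF (fun p : γ × ℕ => ([(2, p.2 + 1), (3, p.2 + 1), (4, p.2 + 1), (5, p.2 + 1)] :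
      List Lab)) :=
    PF.cons (plab_e 2 _ PF.snd) (PF.cons (plab_e 3 _ PF.snd) (PF.cons (plab_e 4 _ PF.snd)
      (PF.cons (plab_e 5 _ PF.snd) (PF.const []))))
  have hf := h2 γ ℕ Lab (fun c => List.range (m c)) _ hr hh
  exact PF.cons (PF.const ((0, 0) : Lab)) (PF.cons (PF.const ((1, 0) : Lab)) hf)

end Pool.Agent.Helper92.PO
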